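import Mathlib

set_option autoImplicit false

open Complex Set Filter Topology

namespace Pool.Agent.H.MP_f3b8e9_an

lemma ext1 {Ω : Set ℂ} (ho : IsOpen Ω) (hc : IsPreconnected Ω) (g U : ℂ → ℂ) (μ : ℂ)
    (hg : DifferentiableOn ℂ g Ω) (hU : Differentiable ℂ U)
    (h : ∀ z ∈ Ω, deriv g z - μ * g z = U z) :
    ∃ G : ℂ → ℂ, Differentiable ℂ G ∧ EqOn g G Ω := by
  have h1 : Differentiable ℂ (fun z => exp (-(μ * z)) * U z) := by fun_prop
  obtain ⟨V, hV⟩ := h1.isExactOn_univ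
  have hVd : Differentiable ℂ V := fun z => (hV z (mem_univ _)).differentiableAt
  have h2 : ∀ z ∈ Ω, HasDerivAt (fun z => exp (-(μ * z)) * g z - V z) 0 z := by
    intro z hz
    have a1 : HasDerivAt (fun z => exp (-(μ * z))) (exp (-(μ * z)) * (-μ)) z := by
      have : HasDerivAt (fun z : ℂ => -(μ * z)) (-μ) z := by
        exact (((hasDerivAt_id z).const_mul μ).neg).congr_deriv (by simp)
      exact this.cexp
    have a2 := ((hg z hz).differentiableAt (ho.mem_nhds hz)).hasDerivAt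
    have a3 := (a1.mul a2).sub (hV z (mem_univ _))
    refine HasDerivAt.congr_deriv a3 ?_
    simp only [← h z hz]
    ring
  obtain ⟨a, ha⟩ := ho.exists_is_const_of_deriv_eq_zero hc
    (fun z hz => (h2 z hz).differentiableAt.differentiableWithinAt) (fun z hz => (h2 z hz).deriv)
  refine ⟨fun z => exp (μ * z) * (V z + a), by fun_prop, fun z hz => ?_⟩
  have h3 := ha z hz
  have h4 : exp (μ * z) * exp (-(μ * z)) = 1 := by rw [← exp_add]; simp
  show g z = exp (μ * z) * (V z + a)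
  rw [← h3]
  linear_combination (-g z) * h4

noncomputable def TT (l : ℂ) (u : ℂ → ℂ) : ℂ → ℂ := fun w => iteratedDeriv 2 u w - l * u w

lemma it2 (u : ℂ → ℂ) : iteratedDeriv 2 u = deriv (deriv u) := by
  rw [iteratedDeriv_succ, iteratedDeriv_one]

lemma TT_diff {Ω : Set ℂ} (ho : IsOpen Ω) (l : ℂ) (g : ℂ → ℂ) (hg : DifferentiableOn ℂ g Ω) :
    DifferentiableOn ℂ (TT l g) Ω := by
  unfold TT
  rw [it2]
  exact ((hg.deriv ho).deriv ho).sub (hg.const_mul l)

lemma ext2 {Ω : Set ℂ} (ho : IsOpen Ω) (hc : IsPreconnected Ω) (g U : ℂ → ℂ) (l : ℂ)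
    (hg : DifferentiableOn ℂ g Ω) (hU : Differentiable ℂ U) (h : EqOn (TT l g) U Ω) :
    ∃ G : ℂ → ℂ, Differentiable ℂ G ∧ EqOn g G Ω := by
  obtain ⟨μ, hμ⟩ := IsAlgClosed.exists_pow_nat_eq l (n := 2) (by norm_num)
  obtain ⟨G1, hG1, e1⟩ := ext1 ho hc (fun z => deriv g z + μ * g z) U μ
    ((hg.deriv ho).add (hg.const_mul μ)) hU (fun z hz => by
      have a2 := ((hg z hz).differentiableAt (ho.mem_nhds hz)).hasDerivAt
      have a3 := (((hg.deriv ho) z hz).differentiableAt (ho.mem_nhds hz)).hasDerivAt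
      have a4 : HasDerivAt (fun z => deriv g z + μ * g z) _ z := a3.add (a2.const_mul μ)
      rw [a4.deriv, ← h hz, TT, it2, ← hμ]
      ring)
  exact ext1 ho hc g G1 (-μ) hg hG1 (fun z hz => by rw [← e1 hz]; ring)

lemma extm {Ω : Set ℂ} (ho : IsOpen Ω) (hc : IsPreconnected Ω) (l : ℂ) (m : ℕ) :
    ∀ g : ℂ → ℂ, DifferentiableOn ℂ g Ω → (∀ z ∈ Ω, ((TT l)^[m] g) z = 0) →
    ∃ G : ℂ → ℂ, Differentiable ℂ G ∧ EqOn g G Ω := by
  induction m with
  | zero => exact fun g _ h => ⟨fun _ => 0, by fun_prop, fun z hz => h z hz⟩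
  | succ m ih =>
    intro g hg h
    rw [Function.iterate_succ_apply] at h
    obtain ⟨U, hU, e⟩ := ih _ (TT_diff ho l g hg) h
    exact ext2 ho hc g U l hg hU e

lemma cd {Ω : Set ℂ} (ho : IsOpen Ω) {g : ℂ → ℂ} (hg : DifferentiableOn ℂ g Ω) {p : ℂ}
    (hp : p ∈ Ω) (n : ℕ) : ContDiffAt ℂ n g p :=
  (hg.analyticAt (ho.mem_nhds hp)).contDiffAt

lemma it_TT {Ω : Set ℂ} (ho : IsOpen Ω) (l : ℂ) {g : ℂ → ℂ} (hg : DifferentiableOn ℂ g Ω) {p : ℂ}
    (hp : p ∈ Ω) (n : ℕ) :
    iteratedDeriv n (TT l g) p = iteratedDeriv (n + 2) g p - l * iteratedDeriv n g p := by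
  unfold TT
  rw [it2, iteratedDeriv_fun_sub (cd ho ((hg.deriv ho).deriv ho) hp n) (cd ho (hg.const_mul l) hp n),
    iteratedDeriv_const_mul_field, iteratedDeriv_succ', iteratedDeriv_succ']

lemma allz {Ω : Set ℂ} (ho : IsOpen Ω) (l : ℂ) {p q : ℂ} (hp : p ∈ Ω) (hq : q ∈ Ω) (m : ℕ) :
    ∀ g : ℂ → ℂ, DifferentiableOn ℂ g Ω → (∀ z ∈ Ω, ((TT l)^[m] g) z = 0) →
    (∀ j < m, iteratedDeriv (2 * j) g p - iteratedDeriv (2 * j) g q = 0) →
    ∀ j, iteratedDeriv (2 * j) g p - iteratedDeriv (2 * j) g q = 0 := by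
  induction m with
  | zero =>
    intro g _ h _ j
    have e : ∀ r ∈ Ω, iteratedDeriv (2 * j) g r = 0 := by
      intro r hr
      have : g =ᶠ[𝓝 r] fun _ => 0 := by
        filter_upwards [ho.mem_nhds hr] with z hz using h z hz
      rw [this.iteratedDeriv_eq]
      simp
    rw [e p hp, e q hq, sub_zero]
  | succ m ih =>
    intro g hg h h0
    rw [Function.iterate_succ_apply] at h
    have e : ∀ j, iteratedDeriv (2 * j) (TT l g) p - iteratedDeriv (2 * j) (TT l g) q =
        (iteratedDeriv (2 * (j + 1)) g p - iteratedDeriv (2 * (j + 1)) g q) -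
          l * (iteratedDeriv (2 * j) g p - iteratedDeriv (2 * j) g q) := by
      intro j
      rw [it_TT ho l hg hp, it_TT ho l hg hq, mul_add]
      ring
    have h1 := ih _ (TT_diff ho l g hg) h (fun j hj => by
      rw [e, h0 (j + 1) (by omega), h0 j (by omega)]
      ring)
    intro j
    induction j with
    | zero => exact h0 0 (by omega)
    | succ j ihj =>
      have := h1 j
      rw [e, ihj] at this
      simpa using this

lemma it_shift {g : ℂ → ℂ} {p q : ℂ} (n : ℕ) (hp : ContDiffAt ℂ n g p) (hq : ContDiffAt ℂ n g q) :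
    iteratedDeriv n (fun z => g (p + z) - g (q + z)) 0 =
      iteratedDeriv n g p - iteratedDeriv n g q := by
  have a1 : ContDiffAt ℂ n (fun z => g (p + z)) 0 :=
    ContDiffAt.comp 0 (by simpa using hp) (by fun_prop)
  have a2 : ContDiffAt ℂ n (fun z => g (q + z)) 0 :=
    ContDiffAt.comp 0 (by simpa using hq) (by fun_prop)
  rw [iteratedDeriv_fun_sub a1 a2, iteratedDeriv_comp_const_add, iteratedDeriv_comp_const_add]
  simp

lemma odd_of (G : ℂ → ℂ) (hG : Differentiable ℂ G) (p q : ℂ)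
    (h : ∀ j, iteratedDeriv (2 * j) G p - iteratedDeriv (2 * j) G q = 0) (z : ℂ) :
    G (p + z) - G (q + z) + (G (p + -z) - G (q + -z)) = 0 := by
  set w : ℂ → ℂ := fun z => G (p + z) - G (q + z) with hw
  have hwd : Differentiable ℂ w := by
    rw [hw]
    fun_prop
  have hu : Differentiable ℂ (fun z => w z + w (-z)) := by fun_prop
  have h1 : ∀ n, iteratedDeriv n (fun z => w z + w (-z)) 0 = 0 := by
    intro n
    have a1 : ContDiffAt ℂ n w 0 := hwd.contDiff.contDiffAt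
    have a2 : ContDiffAt ℂ n (fun z => w (-z)) 0 :=
      (show Differentiable ℂ (fun z => w (-z)) by fun_prop).contDiff.contDiffAt
    rw [iteratedDeriv_fun_add a1 a2, iteratedDeriv_comp_neg, neg_zero]
    rcases Nat.even_or_odd' n with ⟨j, rfl | rfl⟩
    · rw [hw, it_shift _ hG.contDiff.contDiffAt hG.contDiff.contDiffAt, h j]
      simp
    · rw [pow_succ, pow_mul]
      simp
  have h2 := taylorSeries_eq_of_entire hu 0 z
  simp only [h1, smul_zero, tsum_zero] at h2
  exact h2.symm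

lemma even_zero {g : ℂ → ℂ} {p q : ℂ} (hp : AnalyticAt ℂ g p) (hq : AnalyticAt ℂ g q)
    (h : ∀ᶠ z in 𝓝 (0 : ℂ), g (p + z) - g (q + z) + (g (p + -z) - g (q + -z)) = 0) (j : ℕ) :
    iteratedDeriv (2 * j) g p - iteratedDeriv (2 * j) g q = 0 := by
  rw [← it_shift _ hp.contDiffAt hq.contDiffAt]
  set w : ℂ → ℂ := fun z => g (p + z) - g (q + z) with hw
  have h1 : (fun z => w (-z)) =ᶠ[𝓝 0] -w := by
    filter_upwards [h] with z hz
    simp only [hw, Pi.neg_apply]
    linear_combination hz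
  have h2 := h1.iteratedDeriv_eq (2 * j)
  rw [iteratedDeriv_comp_neg, iteratedDeriv_neg, neg_zero, pow_mul] at h2
  simp only [even_two, Even.neg_pow, one_pow, one_smul] at h2
  linear_combination h2 / 2

lemma iter2 (g : ℂ → ℂ) (q : ℕ) : (iteratedDeriv 2)^[q] g = iteratedDeriv (2 * q) g := by
  induction q generalizing g with
  | zero => simp
  | succ q ih =>
    rw [Function.iterate_succ_apply, ih, it2, mul_add, iteratedDeriv_succ', iteratedDeriv_succ']

end Pool.Agent.H.MP_f3b8e9_an
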