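import Pool.Agent.H.MP_f3b8e9_an.A

set_option autoImplicit false

open Complex Set Filter Topology

namespace Pool.Agent.H.MP_f3b8e9_an

noncomputable def e1 : ℂ → ℂ := dslope exp 0
noncomputable def e2 : ℂ → ℂ := dslope e1 0
noncomputable def kk (u : ℂ) : ℂ := e2 u / e1 u
noncomputable def EE (u : ℂ) : ℂ := 1 / (exp u - 1)

lemma e1_diff : Differentiable ℂ e1 := by
  rw [← differentiableOn_univ, e1, Complex.differentiableOn_dslope univ_mem]
  exact differentiable_exp.differentiableOn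

lemma e2_diff : Differentiable ℂ e2 := by
  rw [← differentiableOn_univ, e2, Complex.differentiableOn_dslope univ_mem]
  exact e1_diff.differentiableOn

lemma e1_zero : e1 0 = 1 := by simp [e1]

lemma e1_mul (u : ℂ) : u * e1 u = exp u - 1 := by
  have := sub_smul_dslope exp 0 u
  simpa [e1] using this

lemma e2_mul (u : ℂ) : u * e2 u = e1 u - 1 := by
  have := sub_smul_dslope e1 0 u
  simpa [e2, e1_zero] using this

def Ok (u : ℂ) : Prop := exp u = 1 → u = 0

lemma e1_ne {u : ℂ} (h : Ok u) : e1 u ≠ 0 := by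
  intro h0
  have h1 := e1_mul u
  rw [h0, mul_zero] at h1
  have h2 : u = 0 := h (by linear_combination -h1)
  rw [h2, e1_zero] at h0
  exact one_ne_zero h0

lemma kk_diff {u : ℂ} (h : Ok u) : DifferentiableAt ℂ kk u :=
  (e2_diff u).div (e1_diff u) (e1_ne h)

lemma EE_eq {u : ℂ} (h : Ok u) (h0 : u ≠ 0) : EE u = 1 / u - kk u := by
  have h1 := e1_ne h
  rw [EE, kk, ← e1_mul]
  field_simp
  linear_combination e2_mul u

lemma EE_diff {u : ℂ} (h : exp u ≠ 1) : DifferentiableAt ℂ EE u := by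
  unfold EE
  exact (differentiableAt_const _).div (differentiable_exp.differentiableAt.sub_const 1)
    (sub_ne_zero.2 h)

lemma exp1 {w : ℂ} (h : exp (I * Real.pi * w) = 1) : ∃ n : ℤ, w.re = 2 * n ∧ w.im = 0 := by
  obtain ⟨n, hn⟩ := exp_eq_one_iff.1 h
  have h1 : (I * Real.pi : ℂ) ≠ 0 := mul_ne_zero I_ne_zero (by exact_mod_cast Real.pi_ne_zero)
  have h2 : w = 2 * n := by
    apply mul_left_cancel₀ h1
    rw [hn]
    ring
  exact ⟨n, by simp [h2], by simp [h2]⟩

lemma exp2 {w : ℂ} (h : exp (Real.pi * w) = 1) : ∃ n : ℤ, w.re = 0 ∧ w.im = 2 * n := by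
  obtain ⟨n, hn⟩ := exp_eq_one_iff.1 h
  have h1 : (Real.pi : ℂ) ≠ 0 := by exact_mod_cast Real.pi_ne_zero
  have h2 : w = 2 * n * I := by
    apply mul_left_cancel₀ h1
    rw [hn]
    ring
  exact ⟨n, by simp [h2], by simp [h2]⟩

lemma int0 {n : ℤ} {x : ℝ} (h : x = 2 * n) (h1 : -2 < x) (h2 : x < 2) : x = 0 := by
  have a : (-1 : ℝ) < n := by linarith
  have b : (n : ℝ) < 1 := by linarith
  have a' : -1 < n := by exact_mod_cast a
  have b' : n < 1 := by exact_mod_cast b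
  have : n = 0 := by omega
  simp [h, this]

lemma ok1 {w : ℂ} (h1 : -2 < w.re) (h2 : w.re < 2) : Ok (I * Real.pi * w) := by
  intro h
  obtain ⟨n, a, b⟩ := exp1 h
  have : w = 0 := Complex.ext (int0 a h1 h2) b
  simp [this]

lemma ok2 {w : ℂ} (h1 : -2 < w.im) (h2 : w.im < 2) : Ok (Real.pi * w) := by
  intro h
  obtain ⟨n, a, b⟩ := exp2 h
  have : w = 0 := Complex.ext a (int0 b h1 h2)
  simp [this]

noncomputable def hh : ℂ := ⟨2 / 3, 2 / 3⟩
noncomputable def cc : ℂ := ⟨1 / 50, 0⟩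

def Om : Set ℂ := {z | -5 / 4 < z.re ∧ z.re < 5 / 4 ∧ -5 / 4 < z.im ∧ z.im < 5 / 4 ∧
  -5 / 4 < z.re + z.im}

def KK : Set ℂ := {z | -6 / 5 ≤ z.re ∧ z.re ≤ 6 / 5 ∧ -6 / 5 ≤ z.im ∧ z.im ≤ 6 / 5 ∧
  -6 / 5 ≤ z.re + z.im}

lemma Om_open : IsOpen Om := by
  unfold Om
  simp only [ofPred_and]
  refine IsOpen.inter ?_ (IsOpen.inter ?_ (IsOpen.inter ?_ (IsOpen.inter ?_ ?_))) <;>
    apply isOpen_lt <;> fun_prop

lemma Om_convex : Convex ℝ Om := by
  intro x hx y hy a b ha hb hab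
  obtain ⟨x1, x2, x3, x4, x5⟩ := hx
  obtain ⟨y1, y2, y3, y4, y5⟩ := hy
  have key : ∀ s t r : ℝ, r < s → r < t → r < a * s + b * t := by
    intro s t r h1 h2
    have := (convex_Ioi r) (show s ∈ Ioi r from h1) (show t ∈ Ioi r from h2) ha hb hab
    simpa using this
  simp only [Om, mem_ofPred_eq, add_re, add_im, real_smul, mul_re, mul_im, ofReal_re, ofReal_im,
    zero_mul, sub_zero, add_zero]
  refine ⟨key _ _ _ x1 y1, ?_, key _ _ _ x3 y3, ?_, ?_⟩
  · have := key (-x.re) (-y.re) (-5 / 4) (by linarith) (by linarith)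
    linarith
  · have := key (-x.im) (-y.im) (-5 / 4) (by linarith) (by linarith)
    linarith
  · have := key _ _ _ x5 y5
    linarith

lemma KK_sub : KK ⊆ Om := by
  rintro z ⟨h1, h2, h3, h4, h5⟩
  refine ⟨?_, ?_, ?_, ?_, ?_⟩ <;> linarith

lemma KK_compact : IsCompact KK := by
  apply Metric.isCompact_of_isClosed_isBounded
  · unfold KK
    simp only [ofPred_and]
    refine IsClosed.inter ?_ (IsClosed.inter ?_ (IsClosed.inter ?_ (IsClosed.inter ?_ ?_))) <;>
      apply isClosed_le <;> fun_prop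
  · refine (Metric.isBounded_closedBall (x := (0 : ℂ)) (r := 3)).subset ?_
    rintro z ⟨h1, h2, h3, h4, h5⟩
    rw [mem_closedBall_zero_iff]
    have := norm_le_abs_re_add_abs_im z
    have a : |z.re| ≤ 6 / 5 := abs_le.2 ⟨by linarith, h2⟩
    have b : |z.im| ≤ 6 / 5 := abs_le.2 ⟨by linarith, h4⟩
    linarith

noncomputable def aa (z : ℂ) : ℂ :=
  I * EE (I * Real.pi * (z - hh)) + I * EE (I * Real.pi * (-z - hh))

noncomputable def bb (z : ℂ) : ℂ := -EE (Real.pi * (z - hh)) - EE (Real.pi * (2 * cc - z - hh))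

noncomputable def ff (z : ℂ) : ℂ :=
  kk (Real.pi * (z - hh)) - I * kk (I * Real.pi * (z - hh)) + I * EE (I * Real.pi * (-z - hh))
    - EE (Real.pi * (2 * cc - z - hh))

lemma EE_per (u : ℂ) : EE (u + 2 * Real.pi * I) = EE u := by
  simp [EE, exp_add]

lemma aa_per (z : ℂ) : aa (z + 2) = aa z := by
  unfold aa
  rw [← EE_per (I * Real.pi * (z - hh)), ← EE_per (I * Real.pi * (-(z + 2) - hh))]
  congr 3 <;> ring

lemma aa_even (z : ℂ) : aa (-z) = aa z := by
  unfold aa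
  rw [neg_neg, add_comm]

lemma bb_per (z : ℂ) : bb (z + 2 * I) = bb z := by
  unfold bb
  rw [← EE_per (Real.pi * (z - hh)), ← EE_per (Real.pi * (2 * cc - (z + 2 * I) - hh))]
  congr 3 <;> ring

lemma bb_even (z : ℂ) : bb (2 * cc - z) = bb z := by
  unfold bb
  rw [sub_sub_cancel]
  ring

lemma ff_eq {z : ℂ} (hz : z ∈ Om) (h : z ≠ hh) : ff z = aa z + bb z := by
  obtain ⟨h1, h2, h3, h4, h5⟩ := hz
  have h0 : z - hh ≠ 0 := sub_ne_zero.2 h
  have hp : (Real.pi : ℂ) ≠ 0 := by exact_mod_cast Real.pi_ne_zero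
  have o1 : Ok (I * Real.pi * (z - hh)) := ok1 (by simp [hh]; linarith) (by simp [hh]; linarith)
  have o2 : Ok (Real.pi * (z - hh)) := ok2 (by simp [hh]; linarith) (by simp [hh]; linarith)
  unfold ff aa bb
  rw [EE_eq o1 (mul_ne_zero (mul_ne_zero I_ne_zero hp) h0), EE_eq o2 (mul_ne_zero hp h0)]
  have : I * (1 / (I * Real.pi * (z - hh))) = 1 / (Real.pi * (z - hh)) := by
    field_simp
  linear_combination -this

lemma ff_diff : DifferentiableOn ℂ ff Om := by
  intro z hz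
  obtain ⟨h1, h2, h3, h4, h5⟩ := hz
  have o1 : Ok (I * Real.pi * (z - hh)) := ok1 (by simp [hh]; linarith) (by simp [hh]; linarith)
  have o2 : Ok (Real.pi * (z - hh)) := ok2 (by simp [hh]; linarith) (by simp [hh]; linarith)
  have o3 : exp (I * Real.pi * (-z - hh)) ≠ 1 := by
    intro h
    obtain ⟨n, a, b⟩ := exp1 h
    simp only [hh, sub_re, neg_re, sub_im, neg_im] at a b
    have := int0 a (by linarith) (by linarith)
    linarith
  have o4 : exp (Real.pi * (2 * cc - z - hh)) ≠ 1 := by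
    intro h
    obtain ⟨n, a, b⟩ := exp2 h
    simp only [hh, cc, sub_re, sub_im, mul_re, mul_im, re_ofNat, im_ofNat] at a b
    have := int0 b (by linarith) (by linarith)
    linarith
  have d1 : DifferentiableAt ℂ (fun z => kk (Real.pi * (z - hh))) z :=
    (kk_diff o2).comp z (f := fun z => Real.pi * (z - hh)) (by fun_prop)
  have d2 : DifferentiableAt ℂ (fun z => kk (I * Real.pi * (z - hh))) z :=
    (kk_diff o1).comp z (f := fun z => I * Real.pi * (z - hh)) (by fun_prop)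
  have d3 : DifferentiableAt ℂ (fun z => EE (I * Real.pi * (-z - hh))) z :=
    (EE_diff o3).comp z (f := fun z => I * Real.pi * (-z - hh)) (by fun_prop)
  have d4 : DifferentiableAt ℂ (fun z => EE (Real.pi * (2 * cc - z - hh))) z :=
    (EE_diff o4).comp z (f := fun z => Real.pi * (2 * cc - z - hh)) (by fun_prop)
  exact (((d1.sub (d2.const_mul I)).add (d3.const_mul I)).sub d4).differentiableWithinAt

def Id1 (g : ℂ → ℂ) : Prop :=
  ∀ z, g (cc + 1 + z) - g (cc - 1 + z) + (g (cc + 1 + -z) - g (cc - 1 + -z)) = 0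

def Id2 (g : ℂ → ℂ) : Prop :=
  ∀ z, g (I + z) - g (-I + z) + (g (I + -z) - g (-I + -z)) = 0

lemma f0_id1 : Id1 (fun z => aa z + bb z) := by
  intro z
  have a1 := aa_per (cc - 1 + z)
  have a2 := aa_per (cc - 1 + -z)
  have b1 := bb_even (cc + 1 + z)
  have b2 := bb_even (cc - 1 + z)
  rw [show cc - 1 + z + 2 = cc + 1 + z by ring] at a1
  rw [show cc - 1 + -z + 2 = cc + 1 + -z by ring] at a2
  rw [show 2 * cc - (cc + 1 + z) = cc - 1 + -z by ring] at b1
  rw [show 2 * cc - (cc - 1 + z) = cc + 1 + -z by ring] at b2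
  simp only [a1, a2, b1, b2]
  ring

lemma f0_id2 : Id2 (fun z => aa z + bb z) := by
  intro z
  have a1 := aa_even (I + z)
  have a2 := aa_even (-I + z)
  have b1 := bb_per (-I + z)
  have b2 := bb_per (-I + -z)
  rw [show -(I + z) = -I + -z by ring] at a1
  rw [show -(-I + z) = I + -z by ring] at a2
  rw [show -I + z + 2 * I = I + z by ring] at b1
  rw [show -I + -z + 2 * I = I + -z by ring] at b2
  simp only [a1, a2, b1, b2]
  ring

lemma near (p : ℂ) (hp : p ∈ Om) (h : p ≠ hh) :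
    ∀ᶠ z in 𝓝 (0 : ℂ), ff (p + z) = aa (p + z) + bb (p + z) ∧
      ff (p + -z) = aa (p + -z) + bb (p + -z) := by
  have h1 : ∀ᶠ w in 𝓝 p, ff w = aa w + bb w := by
    filter_upwards [Om_open.mem_nhds hp, isOpen_ne.mem_nhds h] with w a b using ff_eq a b
  have t1 : Tendsto (fun z : ℂ => p + z) (𝓝 0) (𝓝 p) :=
    Continuous.tendsto' (by fun_prop) _ _ (by simp)
  have t2 : Tendsto (fun z : ℂ => p + -z) (𝓝 0) (𝓝 p) :=
    Continuous.tendsto' (by fun_prop) _ _ (by simp)
  exact (t1.eventually h1).and (t2.eventually h1)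

lemma p1 : cc + 1 ∈ Om := by simp [Om, cc]; norm_num
lemma q1 : cc - 1 ∈ Om := by simp [Om, cc]; norm_num
lemma p2 : I ∈ Om := by simp [Om]; norm_num
lemma q2 : -I ∈ Om := by simp [Om]; norm_num

lemma ne_of_im {z : ℂ} (h : z.im ≠ 2 / 3) : z ≠ hh := fun e => h (by simp [e, hh])
lemma ne_of_re {z : ℂ} (h : z.re ≠ 2 / 3) : z ≠ hh := fun e => h (by simp [e, hh])

lemma ff_an {p : ℂ} (hp : p ∈ Om) : AnalyticAt ℂ ff p := ff_diff.analyticAt (Om_open.mem_nhds hp)

lemma ff_z1 (j : ℕ) : iteratedDeriv (2 * j) ff (cc + 1) - iteratedDeriv (2 * j) ff (cc - 1) = 0 := by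
  apply even_zero (ff_an p1) (ff_an q1)
  filter_upwards [near _ p1 (ne_of_im (by simp [cc]; norm_num)),
    near _ q1 (ne_of_im (by simp [cc]; norm_num))] with z h1 h2
  rw [h1.1, h1.2, h2.1, h2.2]
  exact f0_id1 z

lemma ff_z2 (j : ℕ) : iteratedDeriv (2 * j) ff I - iteratedDeriv (2 * j) ff (-I) = 0 := by
  apply even_zero (ff_an p2) (ff_an q2)
  filter_upwards [near _ p2 (ne_of_re (by simp; norm_num)),
    near _ q2 (ne_of_re (by simp; norm_num))] with z h1 h2
  rw [h1.1, h1.2, h2.1, h2.2]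
  exact f0_id2 z

lemma bound (D : ℂ → ℂ) (h1 : Id1 D) (h2 : Id2 D) (ε : ℝ) (hε : 0 ≤ ε)
    (hD : ∀ w ∈ KK, w ≠ hh → ‖D w‖ ≤ ε) (z : ℂ) (hz : ‖z - hh‖ = 2 / 5) :
    ‖D z - D (2 * cc - z)‖ ≤ 4 * ε := by
  have hz2 : (z.re - 2 / 3) ^ 2 + (z.im - 2 / 3) ^ 2 = 4 / 25 := by
    have := Complex.sq_norm (z - hh)
    rw [hz, normSq_apply] at this
    simp only [hh, sub_re, sub_im] at this
    nlinarith
  have x1 : 4 / 15 ≤ z.re := by nlinarith [sq_nonneg (z.im - 2 / 3)]
  have x2 : z.re ≤ 16 / 15 := by nlinarith [sq_nonneg (z.im - 2 / 3)]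
  have y1 : 4 / 15 ≤ z.im := by nlinarith [sq_nonneg (z.re - 2 / 3)]
  have y2 : z.im ≤ 16 / 15 := by nlinarith [sq_nonneg (z.re - 2 / 3)]
  have hzK : ‖D z‖ ≤ ε := by
    refine hD z ⟨?_, ?_, ?_, ?_, ?_⟩ ?_ <;> try linarith
    intro e
    rw [e] at hz
    norm_num at hz
  have two : ∀ u v : ℂ, ‖u‖ ≤ ε → ‖v‖ ≤ ε → ‖u - v‖ ≤ 2 * ε := fun u v a b => by
    linarith [norm_sub_le u v]
  by_cases c1 : z.re + z.im ≤ 31 / 25
  · have : ‖D (2 * cc - z)‖ ≤ ε := by
      refine hD _ ⟨?_, ?_, ?_, ?_, ?_⟩ (ne_of_im ?_) <;> simp [cc] <;> linarith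
    linarith [two _ _ hzK this]
  by_cases c2 : 21 / 25 ≤ z.re
  · have a : ‖D (z - 2)‖ ≤ ε := by
      refine hD _ ⟨?_, ?_, ?_, ?_, ?_⟩ (ne_of_re ?_) <;> simp <;> linarith
    have b : ‖D (2 * cc - z + 2)‖ ≤ ε := by
      refine hD _ ⟨?_, ?_, ?_, ?_, ?_⟩ (ne_of_im ?_) <;> simp [cc] <;> linarith
    have e := h1 (z - cc - 1)
    rw [show cc + 1 + (z - cc - 1) = z by ring, show cc - 1 + (z - cc - 1) = z - 2 by ring,
      show cc + 1 + -(z - cc - 1) = 2 * cc - z + 2 by ring,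
      show cc - 1 + -(z - cc - 1) = 2 * cc - z by ring] at e
    rw [show D z - D (2 * cc - z) = D (z - 2) - D (2 * cc - z + 2) by linear_combination e]
    linarith [two _ _ a b]
  by_cases c3 : 4 / 5 ≤ z.im
  · have a : ‖D (z - 2 * cc)‖ ≤ ε := by
      refine hD _ ⟨?_, ?_, ?_, ?_, ?_⟩ (ne_of_im ?_) <;> simp [cc] <;> linarith
    have b : ‖D (2 * cc - z + 2 * I)‖ ≤ ε := by
      refine hD _ ⟨?_, ?_, ?_, ?_, ?_⟩ (ne_of_re ?_) <;> simp [cc] <;> linarith
    have c : ‖D (z - 2 * cc - 2 * I)‖ ≤ ε := by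
      refine hD _ ⟨?_, ?_, ?_, ?_, ?_⟩ (ne_of_im ?_) <;> simp [cc] <;> linarith
    have e := h2 (2 * cc - z + I)
    rw [show I + (2 * cc - z + I) = 2 * cc - z + 2 * I by ring,
      show -I + (2 * cc - z + I) = 2 * cc - z by ring,
      show I + -(2 * cc - z + I) = z - 2 * cc by ring,
      show -I + -(2 * cc - z + I) = z - 2 * cc - 2 * I by ring] at e
    rw [show D z - D (2 * cc - z) = (D z - D (z - 2 * cc)) -
      (D (2 * cc - z + 2 * I) - D (z - 2 * cc - 2 * I)) by linear_combination e]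
    linarith [two _ _ hzK a, two _ _ b c, norm_sub_le (D z - D (z - 2 * cc))
      (D (2 * cc - z + 2 * I) - D (z - 2 * cc - 2 * I))]
  exfalso
  push Not at c1 c2 c3
  nlinarith

noncomputable def HH (z : ℂ) : ℂ :=
  -(2 * cc) / Real.pi + (z - hh) * (z - hh - 2 * cc) *
    (-I * kk (I * Real.pi * (z - hh)) + I * EE (I * Real.pi * (-z - hh)) +
      I * kk (I * Real.pi * (z - hh - 2 * cc)) - I * EE (I * Real.pi * (2 * cc - z - hh)))

lemma box {z : ℂ} (hz : ‖z - hh‖ ≤ 2 / 5) : 4 / 15 ≤ z.re ∧ z.re ≤ 16 / 15 ∧ 4 / 15 ≤ z.im := by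
  have a := abs_le.1 ((abs_re_le_norm (z - hh)).trans hz)
  have b := abs_le.1 ((abs_im_le_norm (z - hh)).trans hz)
  simp only [hh, sub_re, sub_im] at a b
  refine ⟨?_, ?_, ?_⟩ <;> linarith [a.1, a.2, b.1, b.2]

lemma HH_diff {z : ℂ} (hz : ‖z - hh‖ ≤ 2 / 5) : DifferentiableAt ℂ HH z := by
  obtain ⟨x1, x2, y1⟩ := box hz
  have o1 : Ok (I * Real.pi * (z - hh)) := ok1 (by simp [hh]; linarith) (by simp [hh]; linarith)
  have o2 : Ok (I * Real.pi * (z - hh - 2 * cc)) :=
    ok1 (by simp [hh, cc]; linarith) (by simp [hh, cc]; linarith)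
  have o3 : exp (I * Real.pi * (-z - hh)) ≠ 1 := by
    intro h
    obtain ⟨n, a, b⟩ := exp1 h
    simp only [hh, sub_im, neg_im] at b
    linarith
  have o4 : exp (I * Real.pi * (2 * cc - z - hh)) ≠ 1 := by
    intro h
    obtain ⟨n, a, b⟩ := exp1 h
    simp only [hh, cc, sub_im, mul_im, re_ofNat, im_ofNat] at b
    linarith
  have d1 : DifferentiableAt ℂ (fun z => kk (I * Real.pi * (z - hh - 2 * cc))) z :=
    (kk_diff o2).comp z (f := fun z => I * Real.pi * (z - hh - 2 * cc)) (by fun_prop)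
  have d2 : DifferentiableAt ℂ (fun z => kk (I * Real.pi * (z - hh))) z :=
    (kk_diff o1).comp z (f := fun z => I * Real.pi * (z - hh)) (by fun_prop)
  have d3 : DifferentiableAt ℂ (fun z => EE (I * Real.pi * (-z - hh))) z :=
    (EE_diff o3).comp z (f := fun z => I * Real.pi * (-z - hh)) (by fun_prop)
  have d4 : DifferentiableAt ℂ (fun z => EE (I * Real.pi * (2 * cc - z - hh))) z :=
    (EE_diff o4).comp z (f := fun z => I * Real.pi * (2 * cc - z - hh)) (by fun_prop)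
  unfold HH
  refine (differentiableAt_const _).add (DifferentiableAt.mul (by fun_prop) ?_)
  exact (((d2.const_mul (-I)).add (d3.const_mul I)).add (d1.const_mul I)).sub (d4.const_mul I)

lemma ncc : ‖2 * cc‖ = 1 / 25 := by
  have : 2 * cc = ((1 / 25 : ℝ) : ℂ) := by
    apply Complex.ext <;> simp [cc]
    norm_num
  rw [this, norm_real]
  norm_num

lemma HH_eq {z : ℂ} (hz : ‖z - hh‖ = 2 / 5) :
    HH z = (z - hh) * (z - hh - 2 * cc) * (aa z - aa (2 * cc - z)) := by
  obtain ⟨x1, x2, y1⟩ := box hz.le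
  have o1 : Ok (I * Real.pi * (z - hh)) := ok1 (by simp [hh]; linarith) (by simp [hh]; linarith)
  have o2 : Ok (I * Real.pi * (z - hh - 2 * cc)) :=
    ok1 (by simp [hh, cc]; linarith) (by simp [hh, cc]; linarith)
  have hp : (Real.pi : ℂ) ≠ 0 := by exact_mod_cast Real.pi_ne_zero
  have n1 : z - hh ≠ 0 := by
    intro e
    rw [e] at hz
    norm_num at hz
  have n2 : z - hh - 2 * cc ≠ 0 := by
    intro e
    rw [sub_eq_zero.1 e, ncc] at hz
    norm_num at hz
  unfold HH aa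
  rw [show -(2 * cc - z) - hh = z - hh - 2 * cc by ring,
    EE_eq o1 (mul_ne_zero (mul_ne_zero I_ne_zero hp) n1),
    EE_eq o2 (mul_ne_zero (mul_ne_zero I_ne_zero hp) n2)]
  field_simp
  ring

lemma far (G : ℂ → ℂ) (hG : Differentiable ℂ G) (h1 : Id1 G) (h2 : Id2 G) :
    ∃ z ∈ KK, 1 / 100 ≤ ‖ff z - G z‖ := by
  by_contra hc
  push Not at hc
  set D : ℂ → ℂ := fun z => aa z + bb z - G z with hD
  have i1 : Id1 D := fun z => by
    have a := f0_id1 z
    have b := h1 z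
    simp only [hD] at a ⊢
    linear_combination a - b
  have i2 : Id2 D := fun z => by
    have a := f0_id2 z
    have b := h2 z
    simp only [hD] at a ⊢
    linear_combination a - b
  have hb := bound D i1 i2 (1 / 100) (by norm_num) (fun w hw hne => by
    have := hc w hw
    rw [ff_eq (KK_sub hw) hne] at this
    exact this.le)
  set W : ℂ → ℂ := fun z => HH z - (z - hh) * (z - hh - 2 * cc) * (G z - G (2 * cc - z)) with hW
  have hWd : DiffContOnCl ℂ W (Metric.ball hh (2 / 5)) := by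
    apply DifferentiableOn.diffContOnCl
    rw [closure_ball _ (by norm_num)]
    intro z hz
    have hz' : ‖z - hh‖ ≤ 2 / 5 := by simpa [dist_eq_norm] using hz
    exact ((HH_diff hz').sub (by fun_prop)).differentiableWithinAt
  have hm := Complex.norm_le_of_forall_mem_frontier_norm_le Metric.isBounded_ball hWd
    (C := 2 / 5 * (11 / 25) * (4 / 100)) (z := hh) (fun z hz => by
      rw [frontier_ball _ (by norm_num)] at hz
      have hz' : ‖z - hh‖ = 2 / 5 := by simpa [dist_eq_norm] using hz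
      have e : W z = (z - hh) * (z - hh - 2 * cc) * (D z - D (2 * cc - z)) := by
        simp only [hW, hD, HH_eq hz', bb_even]
        ring
      rw [e, norm_mul, norm_mul, hz']
      have a := hb z hz'
      have b : ‖z - hh - 2 * cc‖ ≤ 11 / 25 := by
        have := norm_sub_le (z - hh) (2 * cc)
        rw [hz', ncc] at this
        linarith
      gcongr
      linarith) (subset_closure (Metric.mem_ball_self (by norm_num)))
  have e : W hh = -(2 * cc) / Real.pi := by simp [hW, HH]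
  rw [e, norm_div, norm_neg, ncc, norm_real, Real.norm_eq_abs, abs_of_pos Real.pi_pos,
    div_le_iff₀ Real.pi_pos] at hm
  nlinarith [Real.pi_le_four]

lemma span_far (g : ℂ → ℂ) (hg : g ∈ Submodule.span ℂ {r : ℂ → ℂ | DifferentiableOn ℂ r Om ∧
    ∃ (l : ℂ) (m : ℕ), (∀ j < m, iteratedDeriv (2 * j) r (cc + 1) - iteratedDeriv (2 * j) r (cc - 1) = 0) ∧
      (∀ j < m, iteratedDeriv (2 * j) r I - iteratedDeriv (2 * j) r (-I) = 0) ∧
      ∀ z ∈ Om, ((TT l)^[m] r) z = 0}) : ∃ z ∈ KK, 1 / 100 ≤ ‖ff z - g z‖ := by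
  have key : ∃ G : ℂ → ℂ, Differentiable ℂ G ∧ EqOn g G Om ∧ Id1 G ∧ Id2 G := by
    induction hg using Submodule.span_induction with
    | mem r hr =>
      obtain ⟨hd, l, m, a, b, c⟩ := hr
      obtain ⟨G, hG, e⟩ := extm Om_open Om_convex.isPreconnected l m r hd c
      have cg : ∀ n, ∀ p ∈ Om, iteratedDeriv n G p = iteratedDeriv n r p := by
        intro n p hp
        apply Filter.EventuallyEq.iteratedDeriv_eq
        filter_upwards [Om_open.mem_nhds hp] with z hz using (e hz).symm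
      refine ⟨G, hG, e, odd_of G hG _ _ fun j => ?_, odd_of G hG _ _ fun j => ?_⟩
      · rw [cg _ _ p1, cg _ _ q1]
        exact allz Om_open l p1 q1 m r hd c a j
      · rw [cg _ _ p2, cg _ _ q2]
        exact allz Om_open l p2 q2 m r hd c b j
    | zero => exact ⟨fun _ => 0, by fun_prop, fun _ _ => rfl, fun z => by simp, fun z => by simp⟩
    | add x y _ _ hx hy =>
      obtain ⟨G, hG, e, a, b⟩ := hx
      obtain ⟨G', hG', e', a', b'⟩ := hy
      refine ⟨fun z => G z + G' z, hG.add hG', fun z hz => ?_, fun z => ?_, fun z => ?_⟩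
      · simp [e hz, e' hz]
      · linear_combination a z + a' z
      · linear_combination b z + b' z
    | smul t x _ hx =>
      obtain ⟨G, hG, e, a, b⟩ := hx
      refine ⟨fun z => t * G z, hG.const_mul t, fun z hz => ?_, fun z => ?_, fun z => ?_⟩
      · simp [e hz]
      · linear_combination t * a z
      · linear_combination t * b z
  obtain ⟨G, hG, e, a, b⟩ := key
  obtain ⟨z, hz, h⟩ := far G hG a b
  exact ⟨z, hz, by rwa [e (KK_sub hz)]⟩

end Pool.Agent.H.MP_f3b8e9_an
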